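import Pool.Agent.H87.AN.TargetsC
import Pool.Agent.H80.AN.TargetsA

/-! Board allh, row HSJ: the Hessian at level `i`. -/

set_option autoImplicit false

namespace Pool.Agent.H27.AN

open MeasureTheory Metric Set Filter Topology Pool.Agent.H87.SN Pool.Agent.H87.SH Pool.Agent.H87.AX
open Pool.Agent.H22.AN
open scoped ContDiff RealInnerProductSpace ENNReal

noncomputable section

variable {d m : ℕ}

/-- averaging over small balls -/
lemma avg (F : V d → ℝ≥0∞) (hF : Measurable F) (r : ℝ) :
    ∫⁻ x : V d, ∫⁻ y in ball x r, F y = volume (ball (0 : V d) r) * ∫⁻ y, F y := by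
  have hS : MeasurableSet {p : V d × V d | dist p.2 p.1 < r} :=
    measurableSet_lt (measurable_snd.dist measurable_fst) measurable_const
  have hk : Measurable ({p : V d × V d | dist p.2 p.1 < r}.indicator (fun p => F p.2)) :=
    (hF.comp measurable_snd).indicator hS
  have e1 : ∀ x : V d, ∫⁻ y in ball x r, F y =
      ∫⁻ y, {p : V d × V d | dist p.2 p.1 < r}.indicator (fun p => F p.2) (x, y) := by
    intro x
    rw [← lintegral_indicator measurableSet_ball]
    apply lintegral_congr
    intro y
    by_cases h : dist y x < r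
    · rw [indicator_of_mem (mem_ball.2 h), indicator_of_mem (by exact h)]
    · rw [indicator_of_notMem (fun h2 => h (mem_ball.1 h2)), indicator_of_notMem (by exact h)]
  simp_rw [e1]
  have hsw := lintegral_lintegral_swap (μ := (volume : Measure (V d)))
    (ν := (volume : Measure (V d)))
    (f := fun x y => {p : V d × V d | dist p.2 p.1 < r}.indicator (fun p => F p.2) (x, y))
    hk.aemeasurable
  rw [hsw]
  have e2 : ∀ y : V d, ∫⁻ x, {p : V d × V d | dist p.2 p.1 < r}.indicator (fun p => F p.2) (x, y) =
      volume (ball (0 : V d) r) * F y := by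
    intro y
    have e3 : (fun x : V d => {p : V d × V d | dist p.2 p.1 < r}.indicator
        (fun p => F p.2) (x, y)) = (ball y r).indicator (fun _ => F y) := by
      funext x
      by_cases h : dist y x < r
      · rw [indicator_of_mem (by exact h), indicator_of_mem (mem_ball'.2 h)]
      · rw [indicator_of_notMem (by exact h), indicator_of_notMem (fun h2 => h (mem_ball'.1 h2))]
    rw [e3, lintegral_indicator measurableSet_ball, setLIntegral_const,
      Measure.addHaar_ball_center, mul_comm]
  simp_rw [e2]
  rw [lintegral_const_mul _ hF]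

lemma th_meas {G : V d → V d →L[ℝ] E m}
    (h : ∀ r : ℝ, Continuous (fun x => (mu G).real (ball x r))) (r : ℝ) :
    Measurable (fun x => th G x r) := by
  unfold th
  exact (h r).measurable.div_const (r ^ d)

lemma hsq_cont {U : Set (V d)} {u : V d → E m} (hU : IsOpen U) (hu : ContDiffOn ℝ ∞ u U) :
    ContinuousOn (fun x => ENNReal.ofReal (Real.sqrt (hsq u x))) U := by
  have h1 : ContDiffOn ℝ ∞ (fderiv ℝ u) U := hu.fderiv_of_isOpen hU (by simp)
  have h2 : ContDiffOn ℝ ∞ (fderiv ℝ (fderiv ℝ u)) U := h1.fderiv_of_isOpen hU (by simp)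
  have h3 : ContinuousOn (fderiv ℝ (fderiv ℝ u)) U := h2.continuousOn
  have h4 : ContinuousOn (fun x => hsq u x) U := by
    unfold hsq
    apply continuousOn_finsetSum
    intro i _
    apply continuousOn_finsetSum
    intro j _
    exact (((h3.clm_apply continuousOn_const).clm_apply continuousOn_const).norm).pow 2
  exact ENNReal.continuous_ofReal.comp_continuousOn (Real.continuous_sqrt.comp_continuousOn h4)

theorem pf_HSJ (hMUF : T_MUF) (hHLC : T_HLC) : T_HSJ := by
  intro d m L Λ ε er hd hL her hEP
  obtain ⟨C1, hC1, hH⟩ := hHLC d m L Λ ε er hL hEP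
  set vv : ℝ := (volume (ball (0 : V d) 1)).toReal with hvv
  have hvvt : volume (ball (0 : V d) 1) ≠ ⊤ := measure_ball_lt_top.ne
  have hvv0 : 0 < vv := ENNReal.toReal_pos (measure_ball_pos volume 0 one_pos).ne' hvvt
  refine ⟨vv⁻¹ * C1 * (32 ^ d * 2 ^ 16), by positivity, ?_⟩
  intro U u G hSM i hi
  obtain ⟨hfin, -, -, -, -, hcont⟩ := hMUF d m G hSM.gd.memG
  have hFM : IsFiniteMeasure (mu G) := ⟨lt_top_iff_ne_top.2 hfin⟩
  set s : ℝ := sj i with hs
  have hs0 : 0 < s := by rw [hs]; unfold sj; positivity
  have es1 : sj (i + 1) = s / 2 := by rw [hs]; unfold sj; rw [pow_succ]; ring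
  have es2 : sj (i + 2) = s / 4 := by rw [hs]; unfold sj; rw [pow_succ, pow_succ]; ring
  have hs32 : s ≤ 1 / 32 := by
    have h1 : (1 / 2 : ℝ) ^ i ≤ (1 / 2) ^ 5 :=
      pow_le_pow_of_le_one (by norm_num) (by norm_num) hi
    rw [hs]; unfold sj
    norm_num at h1 ⊢
    exact h1
  have h2d : (0 : ℝ) < 2 ^ d := by positivity
  have h1d : (1 : ℝ) ≤ 2 ^ d := one_le_pow₀ (by norm_num)
  have h4d : (4 : ℝ) ^ d = 2 ^ d * 2 ^ d := by rw [← mul_pow]; norm_num
  have herd : er / 2 ^ d ≤ er := div_le_self her.le h1d
  rw [es1, es2]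
  set A : Set (V d) := {x : V d | x ∈ ball 0 1 ∧ er / 2 ^ d ≤ th G x (s / 2) ∧
    th G x (s / 4) < er / 2 ^ d} with hA
  set X : Set (V d) := {x : V d | x ∈ ball 0 (9 / 8) ∧ er / 4 ^ d ≤ th G x s ∧
    th G x (s / 8) < 2 * er} with hX
  set f : V d → ℝ≥0∞ := fun x => ENNReal.ofReal (Real.sqrt (hsq u x)) with hf
  set g : V d → ℝ≥0∞ := fun x => ENNReal.ofReal (Real.sqrt (th G x (s / 128))) with hg
  have hAm : MeasurableSet A := measurableSet_ball.inter
    ((measurableSet_le measurable_const (th_meas hcont _)).inter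
      (measurableSet_lt (th_meas hcont _) measurable_const))
  have hXm : MeasurableSet X := measurableSet_ball.inter
    ((measurableSet_le measurable_const (th_meas hcont _)).inter
      (measurableSet_lt (th_meas hcont _) measurable_const))
  -- `A` is in `U`
  have hAU : A ⊆ U := by
    intro y hy
    have hyb : ball y (s / 4) ⊆ ball 0 2 := by
      intro z hz
      rw [mem_ball] at hz ⊢
      have h1 := mem_ball.1 hy.1
      have h2 := dist_triangle z y 0
      linarith
    exact (hEP U u G hSM y (s / 4) (by positivity) hyb (by linarith [hy.2.2]) y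
      (mem_ball_self (by positivity))).1
  -- measurability
  have hFm : Measurable (A.indicator f) := by
    have h1 : Measurable (U.indicator f) := by
      classical
      have h2 := (hsq_cont hSM.opn hSM.smooth).measurable_piecewise
        (g := (0 : V d → ℝ≥0∞)) continuousOn_const hSM.opn.measurableSet
      rwa [piecewise_eq_indicator] at h2
    have h3 : A.indicator f = A.indicator (U.indicator f) := by
      rw [indicator_indicator, inter_eq_left.2 hAU]
    rw [h3]
    exact h1.indicator hAm
  have hav := avg (A.indicator f) hFm (s / 256)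
  rw [lintegral_indicator hAm] at hav
  -- the inner integral
  have hin : ∀ x : V d, ∫⁻ y in ball x (s / 256), A.indicator f y ≤
      X.indicator (fun x => ENNReal.ofReal (C1 * (s / 8) ^ d) * g x) x := by
    intro x
    by_cases hx : (ball x (s / 256) ∩ A).Nonempty
    · obtain ⟨y, hyb, hyA⟩ := hx
      have hxy : dist y x < s / 256 := mem_ball.1 hyb
      have hy0 : dist y 0 < 1 := mem_ball.1 hyA.1
      have hx0 : dist x 0 < 9 / 8 := by
        have h1 := dist_triangle x y 0
        rw [dist_comm x y] at h1
        linarith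
      have m1 : ball y (s / 2) ⊆ ball x s := by
        intro z hz
        rw [mem_ball] at hz ⊢
        have h1 := dist_triangle z y x
        linarith
      have m2 : ball x (s / 8) ⊆ ball y (s / 4) := by
        intro z hz
        rw [mem_ball] at hz ⊢
        have h1 := dist_triangle z x y
        rw [dist_comm x y] at h1
        linarith
      have t1 : er / 4 ^ d ≤ th G x s := by
        have h1 := hyA.2.1
        unfold th at h1 ⊢
        rw [le_div_iff₀ (by positivity)] at h1 ⊢
        have h2 : (mu G).real (ball y (s / 2)) ≤ (mu G).real (ball x s) := measureReal_mono m1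
        have h3 : er / 4 ^ d * s ^ d = er / 2 ^ d * (s / 2) ^ d := by
          rw [h4d, div_pow]
          field_simp
        rw [h3]
        exact h1.trans h2
      have t2 : th G x (s / 8) < 2 * er := by
        have h1 := hyA.2.2
        unfold th at h1 ⊢
        rw [div_lt_iff₀ (by positivity)] at h1 ⊢
        have h2 : (mu G).real (ball x (s / 8)) ≤ (mu G).real (ball y (s / 4)) :=
          measureReal_mono m2
        have h3 : er / 2 ^ d * (s / 4) ^ d = er * (s / 8) ^ d := by
          have e8 : s / 4 = 2 * (s / 8) := by ring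
          rw [e8, mul_pow]
          field_simp
        rw [h3] at h1
        have h4 : 0 < (s / 8) ^ d := by positivity
        nlinarith
      have hxX : x ∈ X := ⟨mem_ball.2 hx0, t1, t2⟩
      rw [indicator_of_mem hxX]
      have hb : ball x (s / 8) ⊆ ball 0 2 := by
        intro z hz
        rw [mem_ball] at hz ⊢
        have h2 := dist_triangle z x 0
        linarith
      have h3 := (hH U u G hSM x (s / 8) (by positivity) hb t2).2
      have e1 : s / 8 / 32 = s / 256 := by ring
      have e2 : s / 8 / 16 = s / 128 := by ring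
      rw [e1, e2] at h3
      calc ∫⁻ y in ball x (s / 256), A.indicator f y
          ≤ ∫⁻ y in ball x (s / 256), f y := lintegral_mono (indicator_le_self A f)
        _ = hInt u (ball x (s / 256)) := rfl
        _ ≤ _ := h3
        _ = _ := by rw [ENNReal.ofReal_mul (by positivity)]
    · have h0 : ∫⁻ y in ball x (s / 256), A.indicator f y = 0 := by
        rw [← lintegral_indicator measurableSet_ball]
        have : (ball x (s / 256)).indicator (A.indicator f) = fun _ => 0 := by
          rw [indicator_indicator, not_nonempty_iff_eq_empty.1 hx, indicator_empty]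
        rw [this, lintegral_zero]
      rw [h0]
      exact zero_le
  have h5 : volume (ball (0 : V d) (s / 256)) * hInt u A ≤
      ENNReal.ofReal (C1 * (s / 8) ^ d) * ∫⁻ x in X, g x := by
    calc volume (ball (0 : V d) (s / 256)) * hInt u A
        = ∫⁻ x : V d, ∫⁻ y in ball x (s / 256), A.indicator f y := hav.symm
      _ ≤ ∫⁻ x, X.indicator (fun x => ENNReal.ofReal (C1 * (s / 8) ^ d) * g x) x :=
          lintegral_mono hin
      _ = _ := by
          rw [lintegral_indicator hXm, lintegral_const_mul' _ _ ENNReal.ofReal_ne_top]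
  have hvol : volume (ball (0 : V d) (s / 256)) = ENNReal.ofReal (vv * (s / 256) ^ (d + 2)) := by
    rw [Measure.addHaar_ball volume (0 : V d) (by positivity : (0 : ℝ) ≤ s / 256)]
    have hfr : Module.finrank ℝ (V d) = d + 2 := by simp
    rw [hfr, mul_comm vv, ENNReal.ofReal_mul (by positivity), hvv, ENNReal.ofReal_toReal hvvt]
  have hv0 : 0 < vv * (s / 256) ^ (d + 2) := by positivity
  rw [hvol] at h5
  have hne : ENNReal.ofReal (vv * (s / 256) ^ (d + 2)) ≠ 0 := by
    rw [Ne, ENNReal.ofReal_eq_zero, not_le]
    exact hv0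
  have h8 : hInt u A ≤ (ENNReal.ofReal (vv * (s / 256) ^ (d + 2)))⁻¹ *
      (ENNReal.ofReal (C1 * (s / 8) ^ d) * ∫⁻ x in X, g x) := by
    rw [← ENNReal.div_eq_inv_mul, ENNReal.le_div_iff_mul_le (Or.inl hne)
      (Or.inl ENNReal.ofReal_ne_top), mul_comm]
    exact h5
  refine h8.trans (le_of_eq ?_)
  unfold Jj
  rw [← ENNReal.ofReal_inv_of_pos hv0, ← mul_assoc, ← mul_assoc,
    ← ENNReal.ofReal_mul (by positivity), ← ENNReal.ofReal_mul (by positivity)]
  have e1 : (vv * (s / 256) ^ (d + 2))⁻¹ * (C1 * (s / 8) ^ d) =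
      vv⁻¹ * C1 * (32 ^ d * 2 ^ 16) * (s ^ 2)⁻¹ := by
    have e8 : s / 8 = 32 * (s / 256) := by ring
    rw [e8, mul_pow, pow_add]
    have hp : (s / 256) ^ d ≠ 0 := by positivity
    have hs' : s ≠ 0 := hs0.ne'
    have e9 : ((s / 256) ^ 2)⁻¹ = 2 ^ 16 * (s ^ 2)⁻¹ := by
      field_simp
      norm_num
    rw [mul_inv, mul_inv, e9]
    field_simp
  rw [e1]

end

end Pool.Agent.H27.AN
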