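import Pool.Agent.H22.AN.TB3
import Pool.Agent.H80.AN.TargetsA

/-! Board allh, row LQA: second moments at two scales are controlled by beta numbers. -/

set_option autoImplicit false

namespace Pool.Agent.H27.AN

open MeasureTheory Metric Set Filter Topology Pool.Agent.H87.SN Pool.Agent.H87.SH Pool.Agent.H87.AX
open Pool.Agent.H22.AN
open scoped ContDiff RealInnerProductSpace ENNReal

noncomputable section

variable {d m : ℕ}

namespace LQA

theorem rho_sq (x : V d) : rho x ^ 2 = x 0 ^ 2 + x 1 ^ 2 := by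
  unfold rho
  rw [Real.sq_sqrt (by positivity)]

theorem norm_sq_V (x : V d) : ‖x‖ ^ 2 = rho x ^ 2 + ‖zp x‖ ^ 2 := by
  rw [rho_sq, EuclideanSpace.norm_sq_eq, Fin.sum_univ_succ, Fin.sum_univ_succ,
    EuclideanSpace.norm_sq_eq]
  simp only [Real.norm_eq_abs, sq_abs]
  rw [← add_assoc]
  rfl

theorem zp_sub (x y : V d) : zp (x - y) = zp x - zp y := by
  ext i
  rfl

theorem sq_le' {a b : ℝ} (h : a ^ 2 ≤ b ^ 2) (hb : 0 ≤ b) : a ≤ b := by
  by_contra h1
  rw [not_le] at h1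
  nlinarith

theorem norm_zp_le (x : V d) : ‖zp x‖ ≤ ‖x‖ := by
  refine sq_le' ?_ (norm_nonneg x)
  rw [norm_sq_V x]
  nlinarith [sq_nonneg (rho x)]

theorem rho_nonneg (x : V d) : 0 ≤ rho x := Real.sqrt_nonneg _

theorem norm_le_rz (x : V d) : ‖x‖ ≤ rho x + ‖zp x‖ := by
  refine sq_le' ?_ (add_nonneg (rho_nonneg x) (norm_nonneg _))
  rw [norm_sq_V x]
  nlinarith [mul_nonneg (rho_nonneg x) (norm_nonneg (zp x))]

theorem dl_le {a ν₁ ν₂ : V d} (h : ON ν₁ ν₂) (y : V d) : dl a ν₁ ν₂ y ≤ ‖y - a‖ ^ 2 := by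
  unfold dl
  obtain ⟨h1, h2, h3⟩ := h
  set w := y - a
  set p := ⟪w, ν₁⟫ with hp
  set q := ⟪w, ν₂⟫ with hq
  have e1 := norm_sub_sq_real w (p • ν₁ + q • ν₂)
  have e2 : ⟪w, p • ν₁ + q • ν₂⟫ = p * p + q * q := by
    rw [inner_add_right, inner_smul_right, inner_smul_right]
  have e3 : ‖p • ν₁ + q • ν₂‖ ^ 2 = p ^ 2 + q ^ 2 := by
    rw [norm_add_sq_real, norm_smul, norm_smul, h1, h2, inner_smul_left, inner_smul_right, h3]
    simp
  rw [e2, e3] at e1
  nlinarith [sq_nonneg ‖w - (p • ν₁ + q • ν₂)‖]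

theorem geo {y0 y1 s δ : ℝ} {s0 s1 : E d} {y : V d} (hs : 0 < s)
    (h1 : |y0| + |y1| + ‖s0‖ + ‖s1‖ ≤ δ) (hz : ‖zp y‖ ≤ 1)
    (h2 : hd y0 y1 s0 s1 y < 2 * s ^ 2) : rho y ≤ 3 / 2 * s + δ := by
  have i0 : |⟪s0, zp y⟫| ≤ ‖s0‖ := by
    refine (abs_real_inner_le_norm s0 (zp y)).trans ?_
    nlinarith [norm_nonneg s0]
  have i1 : |⟪s1, zp y⟫| ≤ ‖s1‖ := by
    refine (abs_real_inner_le_norm s1 (zp y)).trans ?_
    nlinarith [norm_nonneg s1]
  unfold hd at h2
  set v0 := y0 + ⟪s0, zp y⟫ with hv0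
  set v1 := y1 + ⟪s1, zp y⟫ with hv1
  have j0 : |v0| + |v1| ≤ δ := by
    have a0 := abs_add_le y0 ⟪s0, zp y⟫
    have a1 := abs_add_le y1 ⟪s1, zp y⟫
    rw [← hv0] at a0
    rw [← hv1] at a1
    linarith
  have hδ : 0 ≤ δ := le_trans (by positivity) j0
  set u0 := y 0 - v0 with hu0
  set u1 := y 1 - v1 with hu1
  have hA : u0 ^ 2 + u1 ^ 2 < (3 / 2 * s) ^ 2 := by nlinarith
  have k0 : |u0| ≤ 3 / 2 * s := by
    refine sq_le' ?_ (by positivity)
    rw [sq_abs]
    nlinarith [sq_nonneg u1]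
  have k1 : |u1| ≤ 3 / 2 * s := by
    refine sq_le' ?_ (by positivity)
    rw [sq_abs]
    nlinarith [sq_nonneg u0]
  refine sq_le' ?_ (by positivity)
  rw [rho_sq]
  have ey0 : y 0 = u0 + v0 := by rw [hu0]; ring
  have ey1 : y 1 = u1 + v1 := by rw [hu1]; ring
  rw [ey0, ey1]
  have m0 : u0 * v0 ≤ 3 / 2 * s * |v0| := by
    calc u0 * v0 ≤ |u0 * v0| := le_abs_self _
      _ = |u0| * |v0| := abs_mul _ _
      _ ≤ _ := by gcongr
  have m1 : u1 * v1 ≤ 3 / 2 * s * |v1| := by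
    calc u1 * v1 ≤ |u1 * v1| := le_abs_self _
      _ = |u1| * |v1| := abs_mul _ _
      _ ≤ _ := by gcongr
  have m2 : v0 ^ 2 + v1 ^ 2 ≤ δ ^ 2 := by
    have b0 := abs_nonneg v0
    have b1 := abs_nonneg v1
    rw [← sq_abs v0, ← sq_abs v1]
    nlinarith
  have m3 : 3 / 2 * s * |v0| + 3 / 2 * s * |v1| ≤ 3 / 2 * s * δ := by
    rw [← mul_add]
    gcongr
  nlinarith

theorem sqrt_bd {C0 t J : ℝ} (hC0 : 1 ≤ C0) (ht : 0 < t) (hJ : 0 ≤ J) (n : ℕ) (W B : ℝ≥0∞)
    (h : W ≤ ENNReal.ofReal C0 *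
      (ENNReal.ofReal (t ^ (n + 2)) * B + ENNReal.ofReal (t ^ n * J ^ 2))) :
    (ENNReal.ofReal ((t ^ (n + 2))⁻¹) * W) ^ (1 / 2 : ℝ) ≤
      ENNReal.ofReal C0 * (B ^ (1 / 2 : ℝ) + ENNReal.ofReal (J / t)) := by
  have hh : (0 : ℝ) ≤ 1 / 2 := by norm_num
  have e1 : ENNReal.ofReal ((t ^ (n + 2))⁻¹) * (ENNReal.ofReal C0 *
      (ENNReal.ofReal (t ^ (n + 2)) * B + ENNReal.ofReal (t ^ n * J ^ 2))) =
      ENNReal.ofReal C0 * (B + ENNReal.ofReal ((J / t) ^ 2)) := by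
    rw [mul_left_comm, mul_add, ← mul_assoc, ← ENNReal.ofReal_mul (by positivity),
      ← ENNReal.ofReal_mul (by positivity)]
    have a1 : (t ^ (n + 2))⁻¹ * t ^ (n + 2) = 1 := inv_mul_cancel₀ (by positivity)
    have a2 : (t ^ (n + 2))⁻¹ * (t ^ n * J ^ 2) = (J / t) ^ 2 := by
      rw [pow_add]
      field_simp
    rw [a1, a2, ENNReal.ofReal_one, one_mul]
  have e2 : ENNReal.ofReal ((J / t) ^ 2) ^ (1 / 2 : ℝ) = ENNReal.ofReal (J / t) := by
    rw [ENNReal.ofReal_rpow_of_nonneg (by positivity) hh]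
    congr 1
    rw [← Real.sqrt_eq_rpow, Real.sqrt_sq (by positivity)]
  have e3 : ENNReal.ofReal C0 ^ (1 / 2 : ℝ) ≤ ENNReal.ofReal C0 := by
    rw [ENNReal.ofReal_rpow_of_nonneg (by positivity) hh]
    apply ENNReal.ofReal_le_ofReal
    calc C0 ^ (1 / 2 : ℝ) ≤ C0 ^ (1 : ℝ) :=
          Real.rpow_le_rpow_of_exponent_le hC0 (by norm_num)
      _ = C0 := Real.rpow_one C0
  calc (ENNReal.ofReal ((t ^ (n + 2))⁻¹) * W) ^ (1 / 2 : ℝ)
      ≤ (ENNReal.ofReal C0 * (B + ENNReal.ofReal ((J / t) ^ 2))) ^ (1 / 2 : ℝ) := by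
        rw [← e1]
        exact ENNReal.rpow_le_rpow (mul_le_mul_right h _) hh
    _ = ENNReal.ofReal C0 ^ (1 / 2 : ℝ) * (B + ENNReal.ofReal ((J / t) ^ 2)) ^ (1 / 2 : ℝ) :=
        ENNReal.mul_rpow_of_nonneg _ _ hh
    _ ≤ ENNReal.ofReal C0 * (B ^ (1 / 2 : ℝ) + ENNReal.ofReal ((J / t) ^ 2) ^ (1 / 2 : ℝ)) :=
        mul_le_mul' e3 (ENNReal.rpow_add_le_add_rpow _ _ hh (by norm_num))
    _ = _ := by rw [e2]

end LQA

open LQA

theorem pf_LQA (hCMP : T_CMP) (hTVL : T_TVL) (_hMUF : T_MUF) : T_LQA := by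
  intro d Λ c hΛ hc
  obtain ⟨C0, hC0, hM⟩ := hCMP d Λ c hΛ hc
  obtain ⟨C1, hC1, hT⟩ := hTVL d
  set vv : ℝ := (volume (ball (0 : V d) 1)).toReal with hvv
  have hvvt : volume (ball (0 : V d) 1) ≠ ⊤ := measure_ball_lt_top.ne
  have hvv0 : 0 < vv := ENNReal.toReal_pos (measure_ball_pos volume 0 one_pos).ne' hvvt
  set C : ℝ := 100 + C0 + C0 * C1 + C0 * (8 ^ (d + 2) * vv⁻¹) with hC
  have q1 : 0 ≤ C0 * C1 := by positivity
  have q2 : 0 ≤ C0 * (8 ^ (d + 2) * vv⁻¹) := by positivity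
  have hC100 : 100 ≤ C := by linarith
  have hCC0 : C0 ≤ C := by linarith
  have hCC1 : C0 * C1 ≤ C := by linarith
  have hCC2 : C0 * (8 ^ (d + 2) * vv⁻¹) ≤ C := by linarith
  refine ⟨C, by linarith, ?_⟩
  intro m G hG h R J mb y0 y1 e s0 s1 a ν₁ ν₂ hh hhR hR hJ hmb hsm hCen hON ha0 ha1 hza hdl hth
  have hR0 : 0 < R := hh.trans_le hhR
  have hsm0 : |y0| + |y1| + ‖s0‖ + ‖s1‖ ≤ h / C0 :=
    hsm.trans (div_le_div_of_nonneg_left hh.le (by linarith) hCC0)
  have hsm1 : |y0| + |y1| + ‖s0‖ + ‖s1‖ ≤ h / 100 :=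
    hsm.trans (div_le_div_of_nonneg_left hh.le (by norm_num) hC100)
  -- the key estimate at one point
  have key : ∀ (y : V d) (t : ℝ), h ≤ t → t ≤ R → ‖y - a‖ ≤ R / 2 → dl a ν₁ ν₂ y < (t / 8) ^ 2 →
      (ENNReal.ofReal ((t ^ (d + 2))⁻¹) *
        ∫⁻ x in ball y (6 * t), ENNReal.ofReal (dl a ν₁ ν₂ x) ∂(mu G)) ^ (1 / 2 : ℝ) ≤
      ENNReal.ofReal C0 * (bs G y t + ENNReal.ofReal (J / t)) ∧ e ≤ th G y t := by
    intro y t ht1 ht2 hya hdy
    have ht0 : 0 < t := hh.trans_le ht1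
    have hzy : ‖zp y‖ ≤ R / 2 := by
      have h1 : zp y = zp (y - a) := by rw [zp_sub, hza, sub_zero]
      rw [h1]
      exact (norm_zp_le _).trans hya
    have hr : rho y ≤ 3 / 2 * (t / 8) + h / 100 := by
      refine geo (by positivity) hsm1 (by linarith) ?_
      have h1 := (hdl y).2
      linarith
    have hr4 : rho y < t / 4 := by linarith
    have hb : ball y (8 * t) ⊆ ball 0 2 := by
      intro z hz
      rw [mem_ball] at hz
      rw [mem_ball_zero_iff]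
      have h1 := norm_le_rz y
      have h2 : ‖z‖ ≤ ‖y‖ + dist z y := by
        have h3 := dist_triangle z y 0
        rw [dist_zero_right, dist_zero_right] at h3
        linarith
      linarith
    refine ⟨?_, hth y t ht1 (by linarith) hr4 (by linarith)⟩
    have h1 := hM m G hG h (2 * R) J mb y0 y1 s0 s1 hh (by linarith) (by linarith) hJ hmb hsm0 hCen
      y t ht1 (by linarith) hr4.le (by linarith) hb
    refine sqrt_bd hC0 ht0 hJ d _ _ (le_trans ?_ h1)
    apply lintegral_mono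
    intro x
    exact ENNReal.ofReal_le_ofReal (hdl x).1
  have hdlc : Continuous (fun y : V d => dl a ν₁ ν₂ y) := by
    unfold dl
    fun_prop
  constructor
  · -- the small scale
    set S1 : Set (V d) := {y : V d | y ∈ ball a (R / 2) ∧ dl a ν₁ ν₂ y < (h / 8) ^ 2} with hS1
    set S2 : Set (V d) := {x : V d | x ∈ ball a (R / 2) ∧ e ≤ th G x h} with hS2
    have hS1m : MeasurableSet S1 :=
      measurableSet_ball.inter (isOpen_lt hdlc continuous_const).measurableSet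
    have hk : ∀ y ∈ S1, (ENNReal.ofReal ((h ^ (d + 2))⁻¹) *
        ∫⁻ x in ball y (6 * h), ENNReal.ofReal (dl a ν₁ ν₂ x) ∂(mu G)) ^ (1 / 2 : ℝ) ≤
        ENNReal.ofReal C0 * (bs G y h + ENNReal.ofReal (J / h)) ∧ e ≤ th G y h := by
      intro y hy
      refine key y h le_rfl hhR ?_ hy.2
      rw [← dist_eq_norm]
      exact (mem_ball.1 hy.1).le
    have hsub : S1 ⊆ S2 := fun y hy => ⟨hy.1, (hk y hy).2⟩
    have hvol : volume S1 ≤ ENNReal.ofReal (C1 * (h / 8) ^ 2 * (R / 2) ^ d) :=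
      hT a ν₁ ν₂ a (h / 8) (R / 2) hON (by positivity) (by linarith)
    have i1 : ∫⁻ y in S1, (ENNReal.ofReal ((h ^ (d + 2))⁻¹) *
        ∫⁻ x in ball y (6 * h), ENNReal.ofReal (dl a ν₁ ν₂ x) ∂(mu G)) ^ (1 / 2 : ℝ) ≤
        ENNReal.ofReal C0 * ((∫⁻ x in S2, bs G x h) + ENNReal.ofReal (J / h) *
          ENNReal.ofReal (C1 * (h / 8) ^ 2 * (R / 2) ^ d)) := by
      calc _ ≤ ∫⁻ y in S1, ENNReal.ofReal C0 * (bs G y h + ENNReal.ofReal (J / h)) :=
            setLIntegral_mono' hS1m (fun y hy => (hk y hy).1)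
        _ = ENNReal.ofReal C0 * ∫⁻ y in S1, (bs G y h + ENNReal.ofReal (J / h)) :=
            lintegral_const_mul' _ _ ENNReal.ofReal_ne_top
        _ = ENNReal.ofReal C0 * ((∫⁻ y in S1, bs G y h) + ENNReal.ofReal (J / h) * volume S1) := by
            rw [lintegral_add_right _ measurable_const, setLIntegral_const]
        _ ≤ _ := mul_le_mul_right (add_le_add (lintegral_mono_set hsub)
            (mul_le_mul_right hvol _)) _
    calc _ ≤ ENNReal.ofReal ((h ^ 2)⁻¹) * (ENNReal.ofReal C0 * ((∫⁻ x in S2, bs G x h) +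
          ENNReal.ofReal (J / h) * ENNReal.ofReal (C1 * (h / 8) ^ 2 * (R / 2) ^ d))) :=
          mul_le_mul_right i1 _
      _ = ENNReal.ofReal C0 * (ENNReal.ofReal ((h ^ 2)⁻¹) * (∫⁻ x in S2, bs G x h)) +
          ENNReal.ofReal (C0 * ((h ^ 2)⁻¹ * (J / h * (C1 * (h / 8) ^ 2 * (R / 2) ^ d)))) := by
          rw [ENNReal.ofReal_mul (by positivity : (0 : ℝ) ≤ C0),
            ENNReal.ofReal_mul (by positivity : (0 : ℝ) ≤ (h ^ 2)⁻¹),
            ENNReal.ofReal_mul (by positivity : (0 : ℝ) ≤ J / h)]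
          ring
      _ ≤ ENNReal.ofReal C * (ENNReal.ofReal ((h ^ 2)⁻¹) * (∫⁻ x in S2, bs G x h)) +
          ENNReal.ofReal (C * (R ^ d * J / h)) := by
          refine add_le_add (mul_le_mul_left (ENNReal.ofReal_le_ofReal hCC0) _)
            (ENNReal.ofReal_le_ofReal ?_)
          have e1 : C0 * ((h ^ 2)⁻¹ * (J / h * (C1 * (h / 8) ^ 2 * (R / 2) ^ d))) =
              (C0 * C1) / 64 * ((1 / 2) ^ d * (R ^ d * J / h)) := by
            rw [div_pow R, div_pow h, one_div, inv_pow]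
            field_simp
            norm_num
          rw [e1]
          have h2 : 0 ≤ R ^ d * J / h := by positivity
          have h3 : (1 / 2 : ℝ) ^ d ≤ 1 := pow_le_one₀ (by norm_num) (by norm_num)
          have h4 : (1 / 2 : ℝ) ^ d * (R ^ d * J / h) ≤ 1 * (R ^ d * J / h) := by gcongr
          rw [one_mul] at h4
          have h5 : (C0 * C1) / 64 ≤ C := by linarith
          exact mul_le_mul h5 h4 (by positivity) (by linarith)
      _ = _ := by
          rw [ENNReal.ofReal_mul (by linarith : (0 : ℝ) ≤ C), mul_add]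
  · -- the large scale
    set S2 : Set (V d) := {x : V d | x ∈ ball a (R / 2) ∧ e ≤ th G x R} with hS2
    set X : ℝ≥0∞ := (ENNReal.ofReal (R ^ d / R ^ 2) *
      ∫⁻ x in ball a (R / 2), ENNReal.ofReal (dl a ν₁ ν₂ x) ∂(mu G)) ^ (1 / 2 : ℝ) with hX
    have hk : ∀ y ∈ ball a (R / 8), X ≤ ENNReal.ofReal (R ^ d * C0) *
        (bs G y R + ENNReal.ofReal (J / R)) ∧ e ≤ th G y R := by
      intro y hy
      rw [mem_ball, dist_eq_norm] at hy
      have hdy : dl a ν₁ ν₂ y < (R / 8) ^ 2 := by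
        have h1 := dl_le (a := a) hON y
        have h2 := norm_nonneg (y - a)
        nlinarith
      have hk1 := key y R hhR le_rfl (by linarith) hdy
      refine ⟨?_, hk1.2⟩
      have hsub : ball a (R / 2) ⊆ ball y (6 * R) := by
        intro z hz
        rw [mem_ball] at hz ⊢
        have h1 := dist_triangle z a y
        have h2 : dist a y = ‖y - a‖ := by rw [dist_comm, dist_eq_norm]
        linarith
      have e1 : R ^ d / R ^ 2 = R ^ d * R ^ d * (R ^ (d + 2))⁻¹ := by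
        rw [pow_add]
        field_simp
      have e2 : (ENNReal.ofReal (R ^ d * R ^ d)) ^ (1 / 2 : ℝ) = ENNReal.ofReal (R ^ d) := by
        rw [ENNReal.ofReal_rpow_of_nonneg (by positivity) (by norm_num)]
        congr 1
        rw [← Real.sqrt_eq_rpow, Real.sqrt_mul_self (by positivity)]
      calc X ≤ (ENNReal.ofReal (R ^ d / R ^ 2) *
            ∫⁻ x in ball y (6 * R), ENNReal.ofReal (dl a ν₁ ν₂ x) ∂(mu G)) ^ (1 / 2 : ℝ) := by
            rw [hX]
            exact ENNReal.rpow_le_rpow (mul_le_mul_right (lintegral_mono_set hsub) _)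
              (by norm_num)
        _ = ENNReal.ofReal (R ^ d) * (ENNReal.ofReal ((R ^ (d + 2))⁻¹) *
            ∫⁻ x in ball y (6 * R), ENNReal.ofReal (dl a ν₁ ν₂ x) ∂(mu G)) ^ (1 / 2 : ℝ) := by
            rw [e1, ENNReal.ofReal_mul (by positivity), mul_assoc,
              ENNReal.mul_rpow_of_nonneg _ _ (by norm_num : (0 : ℝ) ≤ 1 / 2), e2]
        _ ≤ ENNReal.ofReal (R ^ d) * (ENNReal.ofReal C0 * (bs G y R + ENNReal.ofReal (J / R))) :=
            mul_le_mul_right hk1.1 _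
        _ = _ := by rw [← mul_assoc, ← ENNReal.ofReal_mul (by positivity)]
    have hsub : ball a (R / 8) ⊆ S2 := fun y hy =>
      ⟨ball_subset_ball (by linarith) hy, (hk y hy).2⟩
    have hvol : volume (ball a (R / 8)) = ENNReal.ofReal (vv * (R / 8) ^ (d + 2)) := by
      rw [Measure.addHaar_ball volume a (by positivity : (0 : ℝ) ≤ R / 8)]
      have hfr : Module.finrank ℝ (V d) = d + 2 := by simp
      rw [hfr, mul_comm vv, ENNReal.ofReal_mul (by positivity), hvv, ENNReal.ofReal_toReal hvvt]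
    have hv0 : 0 < vv * (R / 8) ^ (d + 2) := by positivity
    have hne : ENNReal.ofReal (vv * (R / 8) ^ (d + 2)) ≠ 0 := by
      rw [Ne, ENNReal.ofReal_eq_zero, not_le]
      exact hv0
    have i1 : X * ENNReal.ofReal (vv * (R / 8) ^ (d + 2)) ≤ ENNReal.ofReal (R ^ d * C0) *
        ((∫⁻ x in S2, bs G x R) + ENNReal.ofReal (J / R) *
          ENNReal.ofReal (vv * (R / 8) ^ (d + 2))) := by
      calc X * ENNReal.ofReal (vv * (R / 8) ^ (d + 2)) = ∫⁻ _ in ball a (R / 8), X := by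
            rw [setLIntegral_const, hvol]
        _ ≤ ∫⁻ y in ball a (R / 8), ENNReal.ofReal (R ^ d * C0) *
            (bs G y R + ENNReal.ofReal (J / R)) :=
            setLIntegral_mono' measurableSet_ball (fun y hy => (hk y hy).1)
        _ = ENNReal.ofReal (R ^ d * C0) * ((∫⁻ y in ball a (R / 8), bs G y R) +
            ENNReal.ofReal (J / R) * volume (ball a (R / 8))) := by
            rw [lintegral_const_mul' _ _ ENNReal.ofReal_ne_top,
              lintegral_add_right _ measurable_const, setLIntegral_const]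
        _ ≤ _ := by
            rw [hvol]
            exact mul_le_mul_right (add_le_add (lintegral_mono_set hsub) le_rfl) _
    have i2 : X ≤ (ENNReal.ofReal (R ^ d * C0) *
        ((∫⁻ x in S2, bs G x R) + ENNReal.ofReal (J / R) *
          ENNReal.ofReal (vv * (R / 8) ^ (d + 2)))) *
        (ENNReal.ofReal (vv * (R / 8) ^ (d + 2)))⁻¹ := by
      rw [← div_eq_mul_inv, ENNReal.le_div_iff_mul_le (Or.inl hne)
        (Or.inl ENNReal.ofReal_ne_top)]
      exact i1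
    refine i2.trans ?_
    rw [← ENNReal.ofReal_inv_of_pos hv0]
    calc _ = ENNReal.ofReal (R ^ d * C0 * (vv * (R / 8) ^ (d + 2))⁻¹) * (∫⁻ x in S2, bs G x R) +
          ENNReal.ofReal (R ^ d * C0 * (J / R * (vv * (R / 8) ^ (d + 2)) *
            (vv * (R / 8) ^ (d + 2))⁻¹)) := by
          rw [ENNReal.ofReal_mul (by positivity : (0 : ℝ) ≤ R ^ d * C0),
            ENNReal.ofReal_mul (by positivity : (0 : ℝ) ≤ R ^ d * C0),
            ENNReal.ofReal_mul (by positivity : (0 : ℝ) ≤ J / R * (vv * (R / 8) ^ (d + 2))),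
            ENNReal.ofReal_mul (by positivity : (0 : ℝ) ≤ J / R)]
          ring
      _ ≤ ENNReal.ofReal (C * (R ^ 2)⁻¹) * (∫⁻ x in S2, bs G x R) +
          ENNReal.ofReal (C * (R ^ d * J / R)) := by
          refine add_le_add (mul_le_mul_left (ENNReal.ofReal_le_ofReal ?_) _)
            (ENNReal.ofReal_le_ofReal ?_)
          · have e1 : R ^ d * C0 * (vv * (R / 8) ^ (d + 2))⁻¹ =
                C0 * (8 ^ (d + 2) * vv⁻¹) * (R ^ 2)⁻¹ := by
              rw [div_pow, pow_add R]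
              field_simp
            rw [e1]
            gcongr
          · have e1 : R ^ d * C0 * (J / R * (vv * (R / 8) ^ (d + 2)) *
                (vv * (R / 8) ^ (d + 2))⁻¹) = C0 * (R ^ d * J / R) := by
              rw [mul_assoc (J / R), mul_inv_cancel₀ hv0.ne', mul_one]
              ring
            rw [e1]
            gcongr
      _ = _ := by
          rw [ENNReal.ofReal_mul (by linarith : (0 : ℝ) ≤ C),
            ENNReal.ofReal_mul (by linarith : (0 : ℝ) ≤ C), mul_add, mul_assoc]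

end

end Pool.Agent.H27.AN
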